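import Mathlib
import Pool.Agent.H286R5.ZakDefs
import Pool.Agent.H286R5.ZakFinal

/-!
# Zak's connectedness conjecture for multiple loci: a counterexample in `ℙ^5`

The threefold `X ⊆ ℙ^5` is the closure of the image of
`(b(a+b)xyz, a(a+b)xyz, ab(x²y+z³), ab(yz²+x³), abx²z, abxz²)`. At the two coordinate points
`(1:0:0:0:0:0)` and `(0:1:0:0:0:0)` its tangent cone is the cone over the quintic surface
`(xyz, x²y+z³, yz²+x³, x²z, xz²)` in `ℙ^4` (a nodal degeneration of the elliptic quintic scroll),
which lies on no quadric. So every line through one of these points meets `X` there in a scheme of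
degree at least three, and the projections of both points lie in `X_3`. For a general centre the
first of these two points of `X_3` is isolated.
-/

namespace Pool.Agent.Results.MP_1812d6_ag.ZakConnectednessFails

open Pool.Agent.H286R4 Pool.Agent.H286R5

/-- Disproof of Zak's connectedness conjecture (Q1 of MP_1812d6_ag), with `N = 5`, `n = 3`, `k = 3`,
so that `N - 1 = 4 = (k + 1) (N - n - 1)`: there is a nondegenerate irreducible threefold
`X ⊆ ℙ^5` such that for all centres `o` outside a proper closed subset of `ℙ^5` the point `o` is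
not in `X` and the triple locus `X_3 ⊆ ℙ^4` of the projection from `o` is disconnected. -/
theorem result : ¬ ZakConnectedness ∧
    ∃ X : Set (PS (Fin 6)), IsVariety X ∧ HasDim X 3 ∧ Nondegenerate X ∧
      ∃ Z : Set (PS (Fin 6)), IsZClosed Z ∧ Z ≠ Set.univ ∧
        ∀ (o : Fin 6 → ℂ) (ho : o ≠ 0), Projectivization.mk ℂ o ho ∉ Z →
          Projectivization.mk ℂ o ho ∉ X ∧
          ∀ L : (Fin 6 → ℂ) →ₗ[ℂ] (Fin 5 → ℂ), Function.Surjective L → L o = 0 →
            ¬ IsZConnected (kLocus X o L 3) :=
  ⟨not_zak, XZ, counterexample⟩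

end Pool.Agent.Results.MP_1812d6_ag.ZakConnectednessFails
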